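import Mathlib

/-!
# Integer roots of the Moser polynomials with `s = 4` and `s = 8`

All nontrivial integer roots of the Moser polynomials `F_{4,k}`, for all `k`, and the largest index
`k` for which `F_{8,k}` has a nontrivial integer root.
-/

set_option autoImplicit false

namespace Pool.Agent.Results.MP_b5d28a_nt.IndicesFourAndEight

/-- The Moser polynomial `F_{s,k}`, as a function of `x`:
`∑_{p=1}^{s} (-1)^(p-1) p^(k-1) x (x-1) ⋯ (x-(s-p)+1) / (s-p)!`. -/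
def F (s k : ℕ) (x : ℚ) : ℚ :=
  ∑ p ∈ Finset.Icc 1 s, (-1) ^ (p - 1) * (p : ℚ) ^ (k - 1) *
    ((∏ i ∈ Finset.range (s - p), (x - i)) / ((s - p).factorial : ℚ))

/-- Six times the value, `K = k - 1`. -/
def G (K : ℕ) (n : ℤ) : ℤ :=
  n * (n - 1) * (n - 2) - 3 * 2 ^ K * (n * (n - 1)) + 6 * 3 ^ K * n - 6 * 4 ^ K

theorem F_eq (K : ℕ) (n : ℤ) : F 4 (K + 1) n = (G K n : ℚ) / 6 := by
  unfold F G
  rw [show Finset.Icc 1 4 = ({1, 2, 3, 4} : Finset ℕ) by decide]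
  simp [Finset.prod_range_succ, Nat.factorial]
  ring

theorem F_zero_iff (K : ℕ) (n : ℤ) : F 4 (K + 1) n = 0 ↔ G K n = 0 := by
  rw [F_eq]
  constructor
  · intro h
    have : (G K n : ℚ) = 0 := by linarith
    exact_mod_cast this
  · intro h
    rw [h]
    simp

theorem pos_of_root {K : ℕ} {n : ℤ} (h : G K n = 0) : 0 < n := by
  by_contra hn
  push Not at hn
  unfold G at h
  have h2 : (0 : ℤ) < 2 ^ K := by positivity
  have h3 : (0 : ℤ) < 3 ^ K := by positivity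
  have h4 : (0 : ℤ) < 4 ^ K := by positivity
  have a1 : 0 ≤ n * (n - 1) := by nlinarith
  have a2 : n * (n - 1) * (n - 2) ≤ 0 := by nlinarith
  have a3 : 0 ≤ 2 ^ K * (n * (n - 1)) := by positivity
  have a4 : 3 ^ K * n ≤ 0 := by nlinarith
  nlinarith

theorem le_of_root {K : ℕ} {n : ℤ} (h : G K n = 0) : n ≤ 3 * 2 ^ K + 1 := by
  by_contra hn
  push Not at hn
  unfold G at h
  have h2 : (0 : ℤ) < 2 ^ K := by positivity
  have h3 : (0 : ℤ) < 3 ^ K := by positivity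
  have h23 : (2 : ℤ) ^ K ≤ 3 ^ K := by
    exact pow_le_pow_left₀ (by norm_num) (by norm_num) K
  have h4 : (4 : ℤ) ^ K = 2 ^ K * 2 ^ K := by
    rw [← mul_pow]
    norm_num
  rw [h4] at h
  have a1 : 0 < n * (n - 1) := by nlinarith
  have a2 : 0 ≤ n * (n - 1) * (n - 2 - 3 * 2 ^ K) := mul_nonneg a1.le (by linarith)
  have a3 : 2 ^ K * 2 ^ K ≤ (3 : ℤ) ^ K * 2 ^ K := mul_le_mul_of_nonneg_right h23 h2.le
  have a4 : (3 : ℤ) ^ K * 2 ^ K < 3 ^ K * n := mul_lt_mul_of_pos_left (by linarith) h3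
  nlinarith

theorem three_pow_mod (m : ℕ) : (3 : ℤ) ^ m % 8 = 1 ∨ (3 : ℤ) ^ m % 8 = 3 := by
  induction m with
  | zero => left; norm_num
  | succ m ih =>
    rw [pow_succ]
    omega

theorem four_pow_ge (K : ℕ) (hK : 12 ≤ K) : 24 * (3 : ℤ) ^ K + 2025 ≤ 4 ^ K := by
  induction K, hK using Nat.le_induction with
  | base => norm_num
  | succ K _ ih =>
    rw [pow_succ, pow_succ]
    have h3 : (0 : ℤ) < 3 ^ K := by positivity
    linarith

/-- The 2-adic argument. -/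
theorem no_large {K a : ℕ} {b : ℤ} (hb : b = 1 ∨ b = 3) (hK : 4 ≤ K) (ha : a + 3 ≤ K)
    (h : G K (2 ^ (a + 4) * b) = 0) : False := by
  obtain ⟨c, rfl⟩ : ∃ c, K = a + 3 + c := ⟨K - (a + 3), by omega⟩
  unfold G at h
  set A : ℤ := 2 ^ a with hA
  set C : ℤ := 2 ^ c with hC
  have hA0 : A ≠ 0 := by positivity
  have e1 : (2 : ℤ) ^ (a + 4) = 16 * A := by rw [pow_add]; norm_num; ring
  have e2 : (2 : ℤ) ^ (a + 3 + c) = 8 * A * C := by rw [pow_add, pow_add]; norm_num; ring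
  have e4 : (4 : ℤ) ^ (a + 3 + c) = (8 * A * C) * (8 * A * C) := by
    rw [← e2, ← mul_pow]; norm_num
  have e3 : (6 : ℤ) * 3 ^ (a + 3 + c) = 2 * 3 ^ (a + 3 + c + 1) := by rw [pow_succ]; ring
  rw [e1, e2, e4, e3] at h
  set T : ℤ := 3 ^ (a + 3 + c + 1) with hT
  have hTm : T % 8 = 1 ∨ T % 8 = 3 := three_pow_mod _
  -- cancel the power of two
  have h1 : b * (2 * (8 * A * b) ^ 2 - 3 * (8 * A * b) + 1 + T) =
      3 * (A * C * 4) * (b * (2 * (8 * A * b) - 1) + C) := by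
    have h2 : (32 * A) * (b * (2 * (8 * A * b) ^ 2 - 3 * (8 * A * b) + 1 + T)) =
        (32 * A) * (3 * (A * C * 4) * (b * (2 * (8 * A * b) - 1) + C)) := by
      linear_combination h
    exact mul_left_cancel₀ (by positivity) h2
  -- `A * C` is even
  obtain ⟨D, hD⟩ : ∃ D : ℤ, A * C = 2 * D := by
    refine ⟨2 ^ (a + c - 1), ?_⟩
    rw [hA, hC, ← pow_add, ← pow_succ']
    congr 1
    omega
  rw [hD] at h1
  have h3 : (b * (1 + T)) % 8 = 0 := by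
    have : b * (1 + T) = 8 * (3 * D * (b * (2 * (8 * A * b) - 1) + C) -
        b * (16 * (A * b) ^ 2 - 3 * (A * b))) := by
      linear_combination h1
    omega
  rcases hb with rfl | rfl
  · omega
  · omega

theorem key {K : ℕ} {n : ℤ} (h : G K n = 0) (hn : ¬ (1 ≤ n ∧ n ≤ 4)) :
    (n = 8 ∧ (K = 2 ∨ K = 4 ∨ K = 6)) ∨ (n = 12 ∧ K = 5) := by
  have hpos := pos_of_root h
  have hle := le_of_root h
  rcases lt_or_ge K 4 with hK | hK
  · -- small `K`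
    have hn25 : n ≤ 25 := by
      have : (2 : ℤ) ^ K ≤ 2 ^ 3 := pow_le_pow_right₀ (by norm_num) (by omega)
      norm_num at this
      linarith
    unfold G at h
    interval_cases K <;> interval_cases n <;> simp_all
  · -- the shape of `n`
    obtain ⟨N, rfl⟩ : ∃ N : ℕ, n = N := ⟨n.toNat, by omega⟩
    have hdvd : N ∣ 2 ^ (2 * K + 1) * 3 := by
      have h1 : (N : ℤ) ∣ 6 * 4 ^ K := by
        refine ⟨(N - 1) * (N - 2) - 3 * 2 ^ K * (N - 1) + 6 * 3 ^ K, ?_⟩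
        unfold G at h
        linarith
      have h2 : (6 : ℤ) * 4 ^ K = ((2 ^ (2 * K + 1) * 3 : ℕ) : ℤ) := by
        push_cast
        rw [pow_succ, pow_mul]
        norm_num
        ring
      rw [h2] at h1
      exact_mod_cast h1
    obtain ⟨d1, d2, hd1, hd2, hd⟩ := (Nat.dvd_mul).1 hdvd
    obtain ⟨a, _, rfl⟩ := (Nat.dvd_prime_pow Nat.prime_two).1 hd1
    have hd2' : d2 = 1 ∨ d2 = 3 := (Nat.dvd_prime Nat.prime_three).1 hd2
    have hd0 : 1 ≤ d2 := by omega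
    have haK : a < K + 2 := by
      have h1 : (2 : ℤ) ^ a ≤ 3 * 2 ^ K + 1 := by
        refine le_trans ?_ hle
        rw [← hd]
        push_cast
        have : (1 : ℤ) ≤ d2 := by exact_mod_cast hd0
        nlinarith [show (0 : ℤ) < 2 ^ a by positivity]
      by_contra hcon
      push Not at hcon
      have h2 : (2 : ℤ) ^ (K + 2) ≤ 2 ^ a := pow_le_pow_right₀ (by norm_num) hcon
      have h3 : (2 : ℤ) ^ 4 ≤ 2 ^ K := pow_le_pow_right₀ (by norm_num) hK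
      rw [pow_add] at h2
      norm_num at h3
      linarith
    rcases lt_or_ge a 4 with ha | ha
    · -- finitely many `n`
      have hN : (N : ℤ) ≤ 24 := by
        rw [← hd]
        push_cast
        have h1 : (2 : ℤ) ^ a ≤ 2 ^ 3 := pow_le_pow_right₀ (by norm_num) (by omega)
        have h2 : (d2 : ℤ) ≤ 3 := by omega
        have h3 : (0 : ℤ) < 2 ^ a := by positivity
        norm_num at h1
        nlinarith
      rcases lt_or_ge K 12 with hK2 | hK2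
      · have hcast : ((2 ^ a * d2 : ℕ) : ℤ) = N := by exact_mod_cast hd
        unfold G at h
        rw [← hcast] at h hn ⊢
        clear hcast hd hdvd hd1 hN haK hle hpos
        interval_cases a <;> rcases hd2' with rfl | rfl <;> interval_cases K <;> simp_all
      · exfalso
        have h1 := four_pow_ge K hK2
        unfold G at h
        have h3 : (0 : ℤ) < 3 ^ K := by positivity
        have h2 : (0 : ℤ) < 2 ^ K := by positivity
        have hN1 : (1 : ℤ) ≤ N := by linarith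
        have a1 : 0 ≤ (2 : ℤ) ^ K * (N * (N - 1)) :=
          mul_nonneg h2.le (mul_nonneg (by linarith) (by linarith))
        have a2 : (3 : ℤ) ^ K * N ≤ 3 ^ K * 24 := mul_le_mul_of_nonneg_left hN h3.le
        have a3 : (N : ℤ) * (N - 1) * (N - 2) ≤ 12144 := by
          have b1 : (N : ℤ) * (N - 1) ≤ 24 * 23 := by nlinarith
          have b2 : 0 ≤ (N : ℤ) * (N - 1) := mul_nonneg (by linarith) (by linarith)
          nlinarith
        linarith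
    · -- the 2-adic argument
      exfalso
      obtain ⟨a', rfl⟩ : ∃ a', a = a' + 4 := ⟨a - 4, by omega⟩
      have hN : (N : ℤ) = 2 ^ (a' + 4) * (d2 : ℤ) := by
        rw [← hd]
        push_cast
        ring
      rw [hN] at h
      exact no_large (by omega) hK (by omega) h

/-! ### The case `s = 8` -/

/-- The factor of `n`. -/
def Br (x2 x3 x4 x5 x6 x7 n : ℤ) : ℤ :=
  (n - 1) * (n - 2) * (n - 3) * (n - 4) * (n - 5) * (n - 6)
    - 7 * x2 * ((n - 1) * (n - 2) * (n - 3) * (n - 4) * (n - 5))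
    + 42 * x3 * ((n - 1) * (n - 2) * (n - 3) * (n - 4))
    - 210 * x4 * ((n - 1) * (n - 2) * (n - 3))
    + 840 * x5 * ((n - 1) * (n - 2)) - 2520 * x6 * (n - 1) + 5040 * x7

/-- `5040` times the value, `K = k - 1`. -/
def H (K : ℕ) (n : ℤ) : ℤ :=
  n * Br (2 ^ K) (3 ^ K) (4 ^ K) (5 ^ K) (6 ^ K) (7 ^ K) n - 5040 * 8 ^ K

theorem F_eq8 (K : ℕ) (n : ℤ) : F 8 (K + 1) n = (H K n : ℚ) / 5040 := by
  unfold F H Br
  rw [show Finset.Icc 1 8 = ({1, 2, 3, 4, 5, 6, 7, 8} : Finset ℕ) by decide]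
  simp [Finset.prod_range_succ, Nat.factorial]
  ring

theorem F_zero_iff8 (K : ℕ) (n : ℤ) : F 8 (K + 1) n = 0 ↔ H K n = 0 := by
  rw [F_eq8]
  constructor
  · intro h
    have : (H K n : ℚ) = 0 := by linarith
    exact_mod_cast this
  · intro h
    rw [h]
    simp

theorem pos_of_root8 {K : ℕ} {n : ℤ} (h : H K n = 0) : 0 < n := by
  by_contra hn
  push Not at hn
  obtain ⟨m, hm, rfl⟩ : ∃ m : ℤ, 0 ≤ m ∧ n = -m := ⟨-n, by linarith, by ring⟩
  have e : H K (-m) = -(m * ((m + 1) * (m + 2) * (m + 3) * (m + 4) * (m + 5) * (m + 6)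
    + 7 * 2 ^ K * ((m + 1) * (m + 2) * (m + 3) * (m + 4) * (m + 5))
    + 42 * 3 ^ K * ((m + 1) * (m + 2) * (m + 3) * (m + 4))
    + 210 * 4 ^ K * ((m + 1) * (m + 2) * (m + 3))
    + 840 * 5 ^ K * ((m + 1) * (m + 2)) + 2520 * 6 ^ K * (m + 1) + 5040 * 7 ^ K)
    + 5040 * 8 ^ K) := by
    unfold H Br
    ring
  have p : 0 < m * ((m + 1) * (m + 2) * (m + 3) * (m + 4) * (m + 5) * (m + 6)
    + 7 * 2 ^ K * ((m + 1) * (m + 2) * (m + 3) * (m + 4) * (m + 5))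
    + 42 * 3 ^ K * ((m + 1) * (m + 2) * (m + 3) * (m + 4))
    + 210 * 4 ^ K * ((m + 1) * (m + 2) * (m + 3))
    + 840 * 5 ^ K * ((m + 1) * (m + 2)) + 2520 * 6 ^ K * (m + 1) + 5040 * 7 ^ K)
    + 5040 * 8 ^ K := by positivity
  rw [e] at h
  linarith

theorem le_of_root8 {K : ℕ} {n : ℤ} (h : H K n = 0) : n ≤ 7 * 2 ^ K + 6 := by
  by_contra hn
  push Not at hn
  have h2 : (0 : ℤ) < 2 ^ K := by positivity
  have h3 : (0 : ℤ) < 3 ^ K := by positivity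
  have h5 : (0 : ℤ) < 5 ^ K := by positivity
  have h7 : (0 : ℤ) < 7 ^ K := by positivity
  have e4 : (4 : ℤ) ^ K ≤ 3 ^ K * 2 ^ K := by
    rw [← mul_pow]; exact pow_le_pow_left₀ (by norm_num) (by norm_num) K
  have e6 : (6 : ℤ) ^ K ≤ 5 ^ K * 2 ^ K := by
    rw [← mul_pow]; exact pow_le_pow_left₀ (by norm_num) (by norm_num) K
  have e8 : (8 : ℤ) ^ K ≤ 7 ^ K * 2 ^ K := by
    rw [← mul_pow]; exact pow_le_pow_left₀ (by norm_num) (by norm_num) K
  have e : H K n = n * (n - 1) * (n - 2) * (n - 3) * (n - 4) * (n - 5) * (n - 6 - 7 * 2 ^ K)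
      + 42 * (n * (n - 1) * (n - 2) * (n - 3)) * (3 ^ K * (n - 4) - 5 * 4 ^ K)
      + 840 * (n * (n - 1)) * (5 ^ K * (n - 2) - 3 * 6 ^ K) + 5040 * (7 ^ K * n - 8 ^ K) := by
    unfold H Br
    ring
  have g0 : 7 ≤ n - 7 * 2 ^ K := by linarith
  have b3 : 3 ^ K * (7 * 2 ^ K) ≤ (3 : ℤ) ^ K * (n - 4) := mul_le_mul_of_nonneg_left (by linarith) h3.le
  have b5 : 5 ^ K * (7 * 2 ^ K) ≤ (5 : ℤ) ^ K * (n - 2) := mul_le_mul_of_nonneg_left (by linarith) h5.le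
  have b7 : 7 ^ K * (7 * 2 ^ K) ≤ (7 : ℤ) ^ K * n := mul_le_mul_of_nonneg_left (by linarith) h7.le
  have n4 : (0 : ℤ) ≤ 4 ^ K := by positivity
  have n6 : (0 : ℤ) ≤ 6 ^ K := by positivity
  have n8 : (0 : ℤ) < 8 ^ K := by positivity
  have c3 : 0 ≤ (3 : ℤ) ^ K * (n - 4) - 5 * 4 ^ K := by nlinarith
  have c5 : 0 ≤ (5 : ℤ) ^ K * (n - 2) - 3 * 6 ^ K := by nlinarith
  have c7 : 0 < (7 : ℤ) ^ K * n - 8 ^ K := by nlinarith
  have d0 : (0 : ℤ) ≤ n := by linarith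
  have d1 : (0 : ℤ) ≤ n - 1 := by linarith
  have d2 : (0 : ℤ) ≤ n - 2 := by linarith
  have d3 : (0 : ℤ) ≤ n - 3 := by linarith
  have d4 : (0 : ℤ) ≤ n - 4 := by linarith
  have d5 : (0 : ℤ) ≤ n - 5 := by linarith
  have d6 : (0 : ℤ) ≤ n - 6 - 7 * 2 ^ K := by linarith
  have : 0 < H K n := by
    rw [e]
    have t1 : 0 ≤ n * (n - 1) * (n - 2) * (n - 3) * (n - 4) * (n - 5) * (n - 6 - 7 * 2 ^ K) := by
      positivity
    have t2 : 0 ≤ 42 * (n * (n - 1) * (n - 2) * (n - 3)) * (3 ^ K * (n - 4) - 5 * 4 ^ K) := by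
      positivity
    have t3 : 0 ≤ 840 * (n * (n - 1)) * (5 ^ K * (n - 2) - 3 * 6 ^ K) := by positivity
    linarith
  linarith

theorem mod32 (K : ℕ) : (45 + 63 * 3 ^ K + 105 * 5 ^ K + 315 * 7 ^ K : ZMod 32) ≠ 0 := by
  obtain ⟨q, r, hr, rfl⟩ : ∃ q r, r < 8 ∧ K = 8 * q + r := ⟨K / 8, K % 8, by omega, by omega⟩
  rw [pow_add, pow_add, pow_add, pow_mul, pow_mul, pow_mul,
    show (3 : ZMod 32) ^ 8 = 1 by decide, show (5 : ZMod 32) ^ 8 = 1 by decide,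
    show (7 : ZMod 32) ^ 8 = 1 by decide, one_pow]
  interval_cases r <;> decide

theorem no_large8 {K a : ℕ} {m : ℤ} (hm : ¬ 2 ∣ m) (ha : 9 ≤ a) (hK : 9 ≤ K) (haK : a ≤ 3 * K - 5)
    (h : H K (2 ^ a * m) = 0) : False := by
  set n : ℤ := 2 ^ a * m with hn
  set B := Br (2 ^ K) (3 ^ K) (4 ^ K) (5 ^ K) (6 ^ K) (7 ^ K) n with hB
  have h1 : m * B = 2 ^ (3 * K + 4 - a) * 315 := by
    have h2 : (2 : ℤ) ^ a * (m * B) = 2 ^ a * (2 ^ (3 * K + 4 - a) * 315) := by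
      rw [← mul_assoc, ← hn, ← mul_assoc, ← pow_add, show a + (3 * K + 4 - a) = 3 * K + 4 by omega,
        pow_add, pow_mul]
      unfold H at h
      norm_num
      linarith
    exact mul_left_cancel₀ (by positivity) h2
  have h2 : (512 : ℤ) ∣ B := by
    have h3 : (512 : ℤ) ∣ m * B := by
      rw [h1]
      refine Dvd.dvd.mul_right ?_ _
      rw [show (512 : ℤ) = 2 ^ 9 by norm_num]
      exact pow_dvd_pow 2 (by omega)
    refine IsCoprime.dvd_of_dvd_mul_left ?_ h3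
    rw [show (512 : ℤ) = 2 ^ 9 by norm_num]
    apply IsCoprime.pow_left
    rw [Int.isCoprime_iff_gcd_eq_one]
    have := (Nat.coprime_primes Nat.prime_two Nat.prime_three).2 (by norm_num)
    rcases Int.even_or_odd m with he | ho
    · exact absurd he.two_dvd hm
    · obtain ⟨t, rfl⟩ := ho
      rw [← Int.isCoprime_iff_gcd_eq_one]
      exact ⟨-t, 1, by ring⟩
  have h3 : ((B : ℤ) : ZMod 512) = 720 + 1008 * 3 ^ K + 1680 * 5 ^ K + 5040 * 7 ^ K := by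
    have e0 : ((n : ℤ) : ZMod 512) = 0 := by
      rw [ZMod.intCast_zmod_eq_zero_iff_dvd, hn]
      refine Dvd.dvd.mul_right ?_ _
      push_cast
      rw [show (512 : ℤ) = 2 ^ 9 by norm_num]
      exact pow_dvd_pow 2 ha
    have z2 : (2 : ZMod 512) ^ K = 0 := by
      obtain ⟨c, rfl⟩ : ∃ c, K = 9 + c := ⟨K - 9, by omega⟩
      rw [pow_add, show (2 : ZMod 512) ^ 9 = 0 by decide, zero_mul]
    have z4 : (4 : ZMod 512) ^ K = 0 := by
      rw [show (4 : ZMod 512) = 2 * 2 by decide, mul_pow, z2, zero_mul]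
    have z6 : (6 : ZMod 512) ^ K = 0 := by
      rw [show (6 : ZMod 512) = 2 * 3 by decide, mul_pow, z2, zero_mul]
    rw [hB]
    unfold Br
    push_cast
    rw [e0, z2, z4, z6]
    ring
  have h4 : (512 : ℤ) ∣ 16 * (45 + 63 * 3 ^ K + 105 * 5 ^ K + 315 * 7 ^ K) := by
    have h5 : ((16 * (45 + 63 * 3 ^ K + 105 * 5 ^ K + 315 * 7 ^ K) : ℤ) : ZMod 512) = 0 := by
      have h6 : ((B : ℤ) : ZMod 512) = 0 := (ZMod.intCast_zmod_eq_zero_iff_dvd _ _).2 (by exact_mod_cast h2)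
      rw [h3] at h6
      push_cast
      rw [← h6]
      ring
    exact_mod_cast (ZMod.intCast_zmod_eq_zero_iff_dvd _ _).1 h5
  have h5 : (32 : ℤ) ∣ 45 + 63 * 3 ^ K + 105 * 5 ^ K + 315 * 7 ^ K := by
    rw [show (512 : ℤ) = 16 * 32 by norm_num] at h4
    exact (mul_dvd_mul_iff_left (by norm_num)).1 h4
  apply mod32 K
  have h6 := (ZMod.intCast_zmod_eq_zero_iff_dvd (45 + 63 * 3 ^ K + 105 * 5 ^ K + 315 * 7 ^ K) 32).2
    (by exact_mod_cast h5)
  push_cast at h6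
  exact h6

/-- The positive terms, `n = t + 7`. -/
def pos (x3 x5 x7 t : ℕ) : ℕ :=
  (t + 7) * (t + 6) * (t + 5) * (t + 4) * (t + 3) * (t + 2) * (t + 1) +
    42 * x3 * ((t + 7) * (t + 6) * (t + 5) * (t + 4) * (t + 3)) +
    840 * x5 * ((t + 7) * (t + 6) * (t + 5)) + 5040 * x7 * (t + 7)

/-- The negative terms, `n = t + 7`. -/
def neg (x2 x4 x6 x8 t : ℕ) : ℕ :=
  7 * x2 * ((t + 7) * (t + 6) * (t + 5) * (t + 4) * (t + 3) * (t + 2)) +
    210 * x4 * ((t + 7) * (t + 6) * (t + 5) * (t + 4)) +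
    2520 * x6 * ((t + 7) * (t + 6)) + 5040 * x8

/-- The check of the finitely many small cases. -/
def chk (K : ℕ) : Bool :=
  (List.range 9).all fun a => ([1, 3, 5, 7, 9, 15, 21, 35, 45, 63, 105, 315] : List ℕ).all fun m =>
    Nat.ble (2 ^ a * m) 8 || !(Nat.beq (pos (3 ^ K) (5 ^ K) (7 ^ K) (2 ^ a * m - 7))
      (neg (2 ^ K) (4 ^ K) (6 ^ K) (8 ^ K) (2 ^ a * m - 7)))

theorem chk_all : ((List.range 85).all fun i => chk (i + 15)) = true := by decide +kernel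

theorem H_eq (K t : ℕ) : H K ((t + 7 : ℕ) : ℤ) = (pos (3 ^ K) (5 ^ K) (7 ^ K) t : ℤ) -
    (neg (2 ^ K) (4 ^ K) (6 ^ K) (8 ^ K) t : ℤ) := by
  unfold H Br pos neg
  push_cast
  ring

theorem mem_list : ∀ d ∈ List.range 316, d ∣ 315 →
    d ∈ ([1, 3, 5, 7, 9, 15, 21, 35, 45, 63, 105, 315] : List ℕ) := by decide +kernel

theorem small8 {K a m : ℕ} (hK : 15 ≤ K) (hK2 : K < 100) (ha : a < 9) (hm : m ∣ 315)
    (hn : 9 ≤ 2 ^ a * m) : H K ((2 ^ a * m : ℕ) : ℤ) ≠ 0 := by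
  have h1 := List.all_eq_true.1 chk_all (K - 15) (List.mem_range.2 (by omega))
  rw [show K - 15 + 15 = K by omega] at h1
  have hm' := mem_list m (List.mem_range.2 (by
    have := Nat.le_of_dvd (by norm_num) hm
    omega)) hm
  have h2 := List.all_eq_true.1 (List.all_eq_true.1 h1 a (List.mem_range.2 ha)) m hm'
  obtain ⟨t, ht⟩ : ∃ t, 2 ^ a * m = t + 7 := ⟨2 ^ a * m - 7, by omega⟩
  rw [ht] at h2 ⊢
  rw [show t + 7 - 7 = t by omega] at h2
  rw [H_eq]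
  intro h3
  have h4 : pos (3 ^ K) (5 ^ K) (7 ^ K) t = neg (2 ^ K) (4 ^ K) (6 ^ K) (8 ^ K) t := by
    have : (pos (3 ^ K) (5 ^ K) (7 ^ K) t : ℤ) = neg (2 ^ K) (4 ^ K) (6 ^ K) (8 ^ K) t := by
      linarith
    exact_mod_cast this
  rw [Bool.or_eq_true] at h2
  rcases h2 with h2 | h2
  · have := Nat.le_of_ble_eq_true h2
    omega
  · rw [h4] at h2
    simp at h2

theorem growth (K : ℕ) (hK : 100 ≤ K) :
    (80640 : ℤ) ^ 7 + 42 * 80640 ^ 5 * 3 ^ K + 840 * 80640 ^ 3 * 5 ^ K + 5040 * 80640 * 7 ^ K <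
      5040 * 8 ^ K := by
  induction K, hK using Nat.le_induction with
  | base => norm_num
  | succ K _ ih =>
    rw [pow_succ (3 : ℤ), pow_succ (5 : ℤ), pow_succ (7 : ℤ), pow_succ (8 : ℤ)]
    have h3 : (0 : ℤ) < 3 ^ K := by positivity
    have h5 : (0 : ℤ) < 5 ^ K := by positivity
    have h7 : (0 : ℤ) < 7 ^ K := by positivity
    norm_num at ih ⊢
    linarith

theorem big8 {K : ℕ} (hK : 100 ≤ K) {n : ℤ} (h1 : 9 ≤ n) (h2 : n ≤ 80640) : H K n ≠ 0 := by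
  have e : H K n = n * (n - 1) * (n - 2) * (n - 3) * (n - 4) * (n - 5) * (n - 6)
      + 42 * (n * (n - 1) * (n - 2) * (n - 3) * (n - 4)) * 3 ^ K
      + 840 * (n * (n - 1) * (n - 2)) * 5 ^ K + 5040 * n * 7 ^ K
      - (7 * 2 ^ K * (n * (n - 1) * (n - 2) * (n - 3) * (n - 4) * (n - 5))
      + 210 * 4 ^ K * (n * (n - 1) * (n - 2) * (n - 3)) + 2520 * 6 ^ K * (n * (n - 1))
      + 5040 * 8 ^ K) := by
    unfold H Br
    ring
  have d0 : (0 : ℤ) ≤ n := by linarith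
  have d1 : (0 : ℤ) ≤ n - 1 := by linarith
  have d2 : (0 : ℤ) ≤ n - 2 := by linarith
  have d3 : (0 : ℤ) ≤ n - 3 := by linarith
  have d4 : (0 : ℤ) ≤ n - 4 := by linarith
  have d5 : (0 : ℤ) ≤ n - 5 := by linarith
  have d6 : (0 : ℤ) ≤ n - 6 := by linarith
  have u1 : n - 1 ≤ 80640 := by linarith
  have u2 : n - 2 ≤ 80640 := by linarith
  have u3 : n - 3 ≤ 80640 := by linarith
  have u4 : n - 4 ≤ 80640 := by linarith
  have u5 : n - 5 ≤ 80640 := by linarith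
  have u6 : n - 6 ≤ 80640 := by linarith
  have m2 : n * (n - 1) ≤ 80640 ^ 2 := by
    rw [pow_succ, pow_one]; exact mul_le_mul h2 u1 d1 (by norm_num)
  have m3 : n * (n - 1) * (n - 2) ≤ 80640 ^ 3 := by
    rw [pow_succ]; exact mul_le_mul m2 u2 d2 (by norm_num)
  have m4 : n * (n - 1) * (n - 2) * (n - 3) ≤ 80640 ^ 4 := by
    rw [pow_succ _ 3]; exact mul_le_mul m3 u3 d3 (by norm_num)
  have m5 : n * (n - 1) * (n - 2) * (n - 3) * (n - 4) ≤ 80640 ^ 5 := by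
    rw [pow_succ _ 4]; exact mul_le_mul m4 u4 d4 (by norm_num)
  have m6 : n * (n - 1) * (n - 2) * (n - 3) * (n - 4) * (n - 5) ≤ 80640 ^ 6 := by
    rw [pow_succ _ 5]; exact mul_le_mul m5 u5 d5 (by norm_num)
  have m7 : n * (n - 1) * (n - 2) * (n - 3) * (n - 4) * (n - 5) * (n - 6) ≤ 80640 ^ 7 := by
    rw [pow_succ _ 6]; exact mul_le_mul m6 u6 d6 (by norm_num)
  have h3 : (0 : ℤ) ≤ 3 ^ K := by positivity
  have h5 : (0 : ℤ) ≤ 5 ^ K := by positivity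
  have h7 : (0 : ℤ) ≤ 7 ^ K := by positivity
  have k5 : 42 * (n * (n - 1) * (n - 2) * (n - 3) * (n - 4)) * 3 ^ K ≤ 42 * 80640 ^ 5 * 3 ^ K :=
    mul_le_mul_of_nonneg_right (mul_le_mul_of_nonneg_left m5 (by norm_num)) h3
  have k3 : 840 * (n * (n - 1) * (n - 2)) * 5 ^ K ≤ 840 * 80640 ^ 3 * 5 ^ K :=
    mul_le_mul_of_nonneg_right (mul_le_mul_of_nonneg_left m3 (by norm_num)) h5
  have k1 : 5040 * n * 7 ^ K ≤ 5040 * 80640 * 7 ^ K :=
    mul_le_mul_of_nonneg_right (mul_le_mul_of_nonneg_left h2 (by norm_num)) h7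
  have q : 0 ≤ 7 * 2 ^ K * (n * (n - 1) * (n - 2) * (n - 3) * (n - 4) * (n - 5))
      + 210 * 4 ^ K * (n * (n - 1) * (n - 2) * (n - 3)) + 2520 * 6 ^ K * (n * (n - 1)) := by
    positivity
  have g := growth K hK
  intro h
  rw [e] at h
  linarith

theorem key8 {K : ℕ} (hK : 15 ≤ K) {n : ℤ} (hn : ¬ (1 ≤ n ∧ n ≤ 8)) : H K n ≠ 0 := by
  intro h
  have hpos := pos_of_root8 h
  have hle := le_of_root8 h
  obtain ⟨N, rfl⟩ : ∃ N : ℕ, n = N := ⟨n.toNat, by omega⟩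
  have hdvd : N ∣ 2 ^ (3 * K + 4) * 315 := by
    have h1 : (N : ℤ) ∣ 5040 * 8 ^ K := by
      refine ⟨Br (2 ^ K) (3 ^ K) (4 ^ K) (5 ^ K) (6 ^ K) (7 ^ K) N, ?_⟩
      unfold H at h
      linarith
    have h2 : (5040 : ℤ) * 8 ^ K = ((2 ^ (3 * K + 4) * 315 : ℕ) : ℤ) := by
      push_cast
      rw [pow_add, pow_mul]
      norm_num
      ring
    rw [h2] at h1
    exact_mod_cast h1
  obtain ⟨d1, m, hd1, hm, hd⟩ := (Nat.dvd_mul).1 hdvd
  obtain ⟨a, _, rfl⟩ := (Nat.dvd_prime_pow Nat.prime_two).1 hd1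
  have hm0 : 1 ≤ m := Nat.pos_of_dvd_of_pos hm (by norm_num)
  have hm315 : m ≤ 315 := Nat.le_of_dvd (by norm_num) hm
  have haK : a < K + 3 := by
    have h1 : (2 : ℤ) ^ a ≤ 7 * 2 ^ K + 6 := by
      refine le_trans ?_ hle
      rw [← hd]
      push_cast
      have : (1 : ℤ) ≤ m := by exact_mod_cast hm0
      nlinarith [show (0 : ℤ) < 2 ^ a by positivity]
    by_contra hcon
    push Not at hcon
    have h2 : (2 : ℤ) ^ (K + 3) ≤ 2 ^ a := pow_le_pow_right₀ (by norm_num) hcon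
    have h3 : (2 : ℤ) ^ 15 ≤ 2 ^ K := pow_le_pow_right₀ (by norm_num) hK
    rw [pow_add] at h2
    norm_num at h2 h3
    linarith
  rcases lt_or_ge a 9 with ha | ha
  · rcases lt_or_ge K 100 with hK2 | hK2
    · refine small8 hK hK2 ha hm ?_ ?_
      · rw [hd]
        omega
      · rw [hd]
        exact h
    · refine big8 hK2 (by omega) ?_ h
      rw [← hd]
      push_cast
      have h1 : (2 : ℤ) ^ a ≤ 2 ^ 8 := pow_le_pow_right₀ (by norm_num) (by omega)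
      have h2 : (m : ℤ) ≤ 315 := by exact_mod_cast hm315
      have h3 : (0 : ℤ) < 2 ^ a := by positivity
      norm_num at h1
      nlinarith
  · have hN : (N : ℤ) = 2 ^ a * (m : ℤ) := by
      rw [← hd]
      push_cast
      ring
    rw [hN] at h
    refine no_large8 (m := (m : ℤ)) ?_ ha (by omega) (by omega) h
    intro h2
    have h3 : 2 ∣ 315 := (by exact_mod_cast h2 : 2 ∣ m).trans hm
    omega

/-- The indices `k` for which `F_{s,k}` has a nontrivial integer root. -/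
def Indices (s : ℕ) : Set ℕ := {k : ℕ | 1 ≤ k ∧ ∃ n : ℤ, ¬ (1 ≤ n ∧ n ≤ s) ∧ F s k n = 0}

/-- **Main result.** -/
theorem result :
    -- all nontrivial integer roots of all the polynomials `F_{4,k}`
    (∀ k : ℕ, 1 ≤ k → ∀ n : ℤ, ¬ (1 ≤ n ∧ n ≤ 4) →
      (F 4 k n = 0 ↔ (n = 8 ∧ (k = 3 ∨ k = 5 ∨ k = 7)) ∨ (n = 12 ∧ k = 6))) ∧
    -- `k_max(4) = 7` and `k_max(8) = 15`
    IsGreatest (Indices 4) 7 ∧ IsGreatest (Indices 8) 15 := by
  have h1 : ∀ k : ℕ, 1 ≤ k → ∀ n : ℤ, ¬ (1 ≤ n ∧ n ≤ 4) →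
      (F 4 k n = 0 ↔ (n = 8 ∧ (k = 3 ∨ k = 5 ∨ k = 7)) ∨ (n = 12 ∧ k = 6)) := by
    intro k hk n hn
    obtain ⟨K, rfl⟩ : ∃ K, k = K + 1 := ⟨k - 1, by omega⟩
    rw [F_zero_iff]
    constructor
    · intro h
      rcases key h hn with ⟨h1, h2⟩ | ⟨h1, h2⟩ <;> omega
    · rintro (⟨rfl, h | h | h⟩ | ⟨rfl, h⟩) <;>
        · obtain rfl : K = _ := Nat.succ_injective h
          norm_num [G]
  refine ⟨h1, ⟨⟨by norm_num, 8, by norm_num,
    (h1 7 (by norm_num) 8 (by norm_num)).2 (by norm_num)⟩, ?_⟩, ⟨⟨by norm_num, 16, by norm_num, ?_⟩,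
    ?_⟩⟩
  · rintro k ⟨hk, n, hn, hF⟩
    rcases (h1 k hk n (by exact_mod_cast hn)).1 hF with ⟨_, h⟩ | ⟨_, h⟩ <;> omega
  · rw [show (15 : ℕ) = 14 + 1 by norm_num, F_zero_iff8]
    norm_num [H, Br]
  · rintro k ⟨hk, n, hn, hF⟩
    by_contra hcon
    push Not at hcon
    obtain ⟨K, rfl⟩ : ∃ K, k = K + 1 := ⟨k - 1, by omega⟩
    exact key8 (by omega) (by exact_mod_cast hn) ((F_zero_iff8 K n).1 hF)

end Pool.Agent.Results.MP_b5d28a_nt.IndicesFourAndEight
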